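import Pool.Agent.H41.SS.Targets

/-!
# Row PAL: the number of the living partial assignments (helper63)
-/

set_option autoImplicit false

namespace Pool.Agent.H63.SSM

open Finset Pool.Agent.H97.RK Pool.Agent.H97.RL Pool.Agent.H41.SS

private theorem low (n i : ℕ) (hi : i ≤ n) :
    (univ.filter fun v : Fin n => (v : ℕ) < i).card = i := by
  have h1 : (univ.filter fun v : Fin n => (v : ℕ) < i) =
      univ.image (fun u : Fin i => (⟨u.1, lt_of_lt_of_le u.2 hi⟩ : Fin n)) := by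
    ext v
    simp only [mem_filter, mem_univ, true_and, mem_image]
    constructor
    · intro h
      exact ⟨⟨v.1, h⟩, rfl⟩
    · rintro ⟨u, rfl⟩
      exact u.2
  rw [h1, card_image_of_injective, card_univ, Fintype.card_fin]
  intro a b h
  exact Fin.ext (congrArg (fun w : Fin n => (w : ℕ)) h)

private theorem bad {n k i : ℕ} (hi : i ≤ n) (z : Fin n → Bool) :
    (univ.filter fun g : Fin k → Fin n × Bool =>
      (∀ j, ((g j).1 : ℕ) < i) ∧ ∀ j, z (g j).1 ≠ (g j).2).card = i ^ k := by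
  classical
  have h1 : (univ.filter fun g : Fin k → Fin n × Bool =>
      (∀ j, ((g j).1 : ℕ) < i) ∧ ∀ j, z (g j).1 ≠ (g j).2) =
      Fintype.piFinset fun _ : Fin k =>
        univ.filter fun l : Fin n × Bool => (l.1 : ℕ) < i ∧ z l.1 ≠ l.2 := by
    ext g
    simp only [mem_filter, mem_univ, true_and, Fintype.mem_piFinset]
    exact forall_and.symm
  have h2 : (univ.filter fun l : Fin n × Bool => (l.1 : ℕ) < i ∧ z l.1 ≠ l.2).card = i := by
    have h3 : (univ.filter fun l : Fin n × Bool => (l.1 : ℕ) < i ∧ z l.1 ≠ l.2) =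
        (univ.filter fun v : Fin n => (v : ℕ) < i).image fun v : Fin n => (v, !(z v)) := by
      ext l
      simp only [mem_filter, mem_univ, true_and, mem_image]
      constructor
      · rintro ⟨hl, h⟩
        refine ⟨l.1, hl, ?_⟩
        have : (!(z l.1)) = l.2 := by
          cases h4 : z l.1 <;> cases h5 : l.2 <;> simp [h4, h5] at h ⊢
        rw [this]
      · rintro ⟨v, hv, rfl⟩
        refine ⟨hv, ?_⟩
        cases z v <;> simp
    rw [h3, card_image_of_injective, low n i hi]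
    intro a b h
    exact congrArg Prod.fst h
  rw [h1, Fintype.card_piFinset_const, h2]

private theorem good {n k i : ℕ} (hn : 1 ≤ n) (hi : i ≤ n) (z : Fin n → Bool) :
    ((univ.filter fun g : Fin k → Fin n × Bool =>
      ¬ ((∀ j, ((g j).1 : ℕ) < i) ∧ ∀ j, z (g j).1 ≠ (g j).2)).card : ℝ) =
      (1 - ((i : ℝ) / (2 * n)) ^ k) * (2 * n : ℝ) ^ k := by
  classical
  have h1 := card_filter_add_card_filter_not
    (s := (univ : Finset (Fin k → Fin n × Bool)))
    (fun g => (∀ j, ((g j).1 : ℕ) < i) ∧ ∀ j, z (g j).1 ≠ (g j).2)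
  have h2 : (univ : Finset (Fin k → Fin n × Bool)).card = (2 * n) ^ k := by
    rw [card_univ, Fintype.card_fun, Fintype.card_prod, Fintype.card_fin, Fintype.card_fin,
      Fintype.card_bool, Nat.mul_comm n 2]
  rw [bad hi z, h2] at h1
  have h3 : ((i : ℝ) ^ k) + ((univ.filter fun g : Fin k → Fin n × Bool =>
      ¬ ((∀ j, ((g j).1 : ℕ) < i) ∧ ∀ j, z (g j).1 ≠ (g j).2)).card : ℝ) = (2 * n : ℝ) ^ k := by
    exact_mod_cast h1
  have hn' : (2 * (n : ℝ)) ≠ 0 := by
    have : (0 : ℝ) < n := by exact_mod_cast hn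
    positivity
  have h4 : ((i : ℝ) / (2 * n)) ^ k * (2 * n : ℝ) ^ k = (i : ℝ) ^ k := by
    rw [← mul_pow, div_mul_cancel₀ _ hn']
  rw [sub_mul, one_mul, h4]
  linarith

private theorem cardZ (n i : ℕ) (hi : i ≤ n) :
    (univ.filter fun z : Fin n → Bool => ∀ v : Fin n, i ≤ v.1 → z v = false).card ≤ 2 ^ i := by
  have h1 : (univ : Finset (Fin i → Bool)).card = 2 ^ i := by
    rw [card_univ, Fintype.card_fun, Fintype.card_fin, Fintype.card_bool]
  rw [← h1]
  refine card_le_card_of_injOn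
    (fun z (u : Fin i) => z (⟨u.1, lt_of_lt_of_le u.2 hi⟩ : Fin n)) (fun _ _ => mem_coe.mpr (mem_univ _)) ?_
  intro z hz z' hz' h
  rw [mem_coe, mem_filter] at hz hz'
  funext v
  by_cases hv : (v : ℕ) < i
  · exact congrFun h ⟨v.1, hv⟩
  · rw [hz.2 v (not_lt.mp hv), hz'.2 v (not_lt.mp hv)]

open Classical in
theorem pf_PAL : T_PAL := by
  intro n k m i hn hi
  set Z : Finset (Fin n → Bool) :=
    univ.filter fun z : Fin n → Bool => ∀ v : Fin n, i ≤ v.1 → z v = false with hZ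
  have h1 : ∀ F : Fml n k m, ((Alv F i).card : ℝ) = ∑ z ∈ Z,
      if (∀ c, ¬ ((∀ j, ((F c j).1 : ℕ) < i) ∧ ∀ j, z (F c j).1 ≠ (F c j).2)) then (1 : ℝ)
      else 0 := by
    intro F
    have h2 : Alv F i = Z.filter fun z =>
        ∀ c, ¬ ((∀ j, ((F c j).1 : ℕ) < i) ∧ ∀ j, z (F c j).1 ≠ (F c j).2) := by
      ext z
      unfold Alv
      simp only [hZ, mem_filter, mem_univ, true_and]
    rw [h2, card_filter]
    push_cast
    rfl
  rw [sum_congr rfl fun F _ => h1 F, sum_comm]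
  have h3 : ∀ z ∈ Z, ∑ F : Fml n k m,
      (if (∀ c, ¬ ((∀ j, ((F c j).1 : ℕ) < i) ∧ ∀ j, z (F c j).1 ≠ (F c j).2)) then (1 : ℝ)
      else 0) = ((1 - ((i : ℝ) / (2 * n)) ^ k) * (2 * n : ℝ) ^ k) ^ m := by
    intro z _
    rw [← good hn hi z, ← Nat.cast_pow, ← Fintype.card_piFinset_const, Finset.sum_boole]
    congr 2
    ext F
    simp only [mem_filter, mem_univ, true_and, Fintype.mem_piFinset]
  rw [sum_congr rfl h3, sum_const, nsmul_eq_mul, mul_assoc, ← mul_pow]
  have h4 : 0 ≤ ((1 - ((i : ℝ) / (2 * n)) ^ k) * (2 * n : ℝ) ^ k) ^ m := by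
    refine pow_nonneg ?_ m
    rw [← good hn hi (fun _ => false)]
    exact Nat.cast_nonneg _
  refine mul_le_mul_of_nonneg_right ?_ h4
  exact_mod_cast cardZ n i hi

end Pool.Agent.H63.SSM
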