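import Pool.Agent.H41.SS.Targets

/-!
# Row RSR: a new start (helper63)
-/

set_option autoImplicit false

namespace Pool.Agent.H63.SSM

open Finset Pool.Agent.H97.RK Pool.Agent.H97.RL Pool.Agent.H41.SS

theorem pf_RSR (hSAF : T_SAF) (hCLS : T_CLS) : T_RSR := by
  intro n k m F D d w b hD z y A A₀ W J hG hS hA hz hn
  have hlt : 0 < D := lt_of_le_of_lt (Nat.zero_le _) hS.lt
  obtain ⟨y', W', J', _, h2, h3, h4⟩ := hCLS n k m F D d w 0 (by omega) z z A₀ ∅ ∅ hG
    (fun u _ => rfl) (fun c hc => absurd hc (notMem_empty c))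
    (fun c hc => absurd hc (notMem_empty c)) (fun c hc => absurd hc (notMem_empty c))
    (by rw [card_empty]; exact hlt) (by rw [card_empty]; omega) hn (by
      intro S hSc _
      obtain ⟨z1, e1, e2⟩ := hSAF n k m F D b y A W J hS S hSc.le
      refine ⟨z1, fun u hu => ?_, e2⟩
      rw [union_empty] at hu
      rw [e1 u (mem_union_left W (hA hu)), hz u hu])
  refine ⟨y', W', J', fun u hu => ?_, h3, h4⟩
  rw [h2 u (mem_union_left ∅ hu), hz u hu]

end Pool.Agent.H63.SSM
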